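import Pool.Agent.Helper7.KT.St

/-!
Module CWT of project KT: counting the served pairs.
-/

set_option autoImplicit false

namespace Pool.Agent.Helper21.KT

open Finset SimpleGraph Filter Topology
open EX Pool.Agent.Helper7.KT
open scoped Classical

theorem hCWT : StCWT := by
  intro V _ Γ H C P hP
  set F : Finset (Finset V) := H.filter fun E => tA Γ H C E ∨ tB Γ H P E with hF
  let f : V × V → Finset V := fun q => aa Γ H C q.1 q.2 ∪ pp Γ H P q.1 q.2
  let S : Finset (Σ _ : V × V, V) := (univ : Finset (V × V)).sigma f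
  let m : (Σ _ : V × V, V) → Finset V := fun t => {t.1.1, t.1.2, t.2}
  have hS : S.card ≤ ∑ q : V × V, ((aa Γ H C q.1 q.2).card + (pp Γ H P q.1 q.2).card) := by
    rw [Finset.card_sigma]
    exact Finset.sum_le_sum fun q _ => Finset.card_union_le _ _
  refine le_trans ?_ hS
  have h2 : ∀ E ∈ F, 2 ≤ ((S.filter fun t => m t ∈ F).filter fun t => m t = E).card := by
    intro E hE
    have hE' := (Finset.mem_filter.1 hE).2
    have key : ∀ t t' : (Σ _ : V × V, V), t ∈ S → t' ∈ S → m t = E → m t' = E → t ≠ t' →
        2 ≤ ((S.filter fun t => m t ∈ F).filter fun t => m t = E).card := by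
      intro t t' ht ht' hm hm' hne
      have hsub : ({t, t'} : Finset (Σ _ : V × V, V)) ⊆
          ((S.filter fun t => m t ∈ F).filter fun t => m t = E) := by
        intro a ha
        rw [Finset.mem_insert, Finset.mem_singleton] at ha
        rcases ha with rfl | rfl
        · exact Finset.mem_filter.2 ⟨Finset.mem_filter.2 ⟨ht, by rw [hm]; exact hE⟩, hm⟩
        · exact Finset.mem_filter.2 ⟨Finset.mem_filter.2 ⟨ht', by rw [hm']; exact hE⟩, hm'⟩
      have h := Finset.card_le_card hsub
      rwa [Finset.card_pair hne] at h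
    rcases hE' with ⟨c, hc, x, y, hT, rfl, hcx, hcy, hxy⟩ | ⟨v, g, u, hT, rfl, hgv, huv, hug⟩
    · have h1 : T3 H x y c := t3_rot _ _ _ _ (t3_swap _ _ _ _ hT)
      have h1' : T3 H y x c := t3_swap _ _ _ _ h1
      refine key ⟨(x, y), c⟩ ⟨(y, x), c⟩ ?_ ?_ ?_ ?_ ?_
      · refine Finset.mem_sigma.2 ⟨Finset.mem_univ _, Finset.mem_union_left _ ?_⟩
        exact Finset.mem_filter.2 ⟨hc, h1, hcx, hcy, hxy⟩
      · refine Finset.mem_sigma.2 ⟨Finset.mem_univ _, Finset.mem_union_left _ ?_⟩
        exact Finset.mem_filter.2 ⟨hc, h1', hcy, hcx, fun h => hxy h.symm⟩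
      · change ({x, y, c} : Finset V) = {c, x, y}
        ext a
        simp only [Finset.mem_insert, Finset.mem_singleton]
        tauto
      · change ({y, x, c} : Finset V) = {c, x, y}
        ext a
        simp only [Finset.mem_insert, Finset.mem_singleton]
        tauto
      · intro h
        have := congrArg (fun t : (Σ _ : V × V, V) => t.1.1) h
        exact h1.1 this
    · have h1 : T3 H u v g := t3_swap _ _ _ _ (t3_rot _ _ _ _ hT)
      have h1' : T3 H u g v := t3_rot _ _ _ _ h1
      refine key ⟨(u, v), g⟩ ⟨(u, g), v⟩ ?_ ?_ ?_ ?_ ?_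
      · refine Finset.mem_sigma.2 ⟨Finset.mem_univ _, Finset.mem_union_right _ ?_⟩
        exact Finset.mem_filter.2 ⟨Finset.mem_univ _, hgv, h1, huv, hug⟩
      · refine Finset.mem_sigma.2 ⟨Finset.mem_univ _, Finset.mem_union_right _ ?_⟩
        exact Finset.mem_filter.2 ⟨Finset.mem_univ _, hP _ _ hgv, h1', hug, huv⟩
      · change ({u, v, g} : Finset V) = {v, g, u}
        ext a
        simp only [Finset.mem_insert, Finset.mem_singleton]
        tauto
      · change ({u, g, v} : Finset V) = {v, g, u}
        ext a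
        simp only [Finset.mem_insert, Finset.mem_singleton]
        tauto
      · intro h
        have := congrArg (fun t : (Σ _ : V × V, V) => t.2) h
        exact h1.2.2.1 this.symm
  have h3 : (S.filter fun t => m t ∈ F).card =
      ∑ E ∈ F, ((S.filter fun t => m t ∈ F).filter fun t => m t = E).card :=
    Finset.card_eq_sum_card_fiberwise fun t ht => (Finset.mem_filter.1 ht).2
  calc 2 * F.card = ∑ E ∈ F, 2 := by rw [Finset.sum_const, smul_eq_mul, mul_comm]
    _ ≤ ∑ E ∈ F, ((S.filter fun t => m t ∈ F).filter fun t => m t = E).card :=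
        Finset.sum_le_sum h2
    _ = (S.filter fun t => m t ∈ F).card := h3.symm
    _ ≤ S.card := Finset.card_filter_le _ _

end Pool.Agent.Helper21.KT
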